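import Mathlib
import Pool.Agent.H523R3.TransMain
import Pool.Agent.U728.Trans.Two
import Pool.Agent.U728.Trans.Three

set_option autoImplicit false

/-!
# MP_ff81d5_co, Q2: the maximal transversal ratios are weakly increasing

The definitions of `tauP`, `tauS` and of all notions they use are in `Pool.Agent.H523R3.TransDefs`.
-/

namespace Pool.Agent.Results.MP_ff81d5_co.Monotone

open Pool.Agent.H523R3.Trans Pool.Agent.U728.Trans Filter Topology

/-- limit superior of suprema of sets of nonnegative numbers which are at most `1 / 2 + 1 / n` -/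
theorem limsup_le_half (A : ℕ → Set ℝ) (h0 : ∀ n, ∀ t ∈ A n, 0 ≤ t)
    (hle : ∀ n : ℕ, 0 < n → ∀ t ∈ A n, t ≤ 1 / 2 + 1 / (n : ℝ)) :
    limsup (fun n => sSup (A n)) atTop ≤ 1 / 2 := by
  have hcob : IsCoboundedUnder (· ≤ ·) atTop (fun n => sSup (A n)) :=
    IsCoboundedUnder.of_frequently_ge (a := 0)
      (Frequently.of_forall fun n => Real.sSup_nonneg (h0 n))
  apply le_of_forall_pos_le_add
  intro ε hε
  refine limsup_le_of_le hcob ?_
  obtain ⟨N, hN⟩ := exists_nat_gt (1 / ε)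
  filter_upwards [eventually_ge_atTop (N + 1)] with n hn
  have hn0 : 0 < n := by omega
  have hnR : (0 : ℝ) < n := by exact_mod_cast hn0
  have h1 : 1 / (n : ℝ) ≤ ε := by
    have h2 : (N : ℝ) ≤ n := by exact_mod_cast (by omega : N ≤ n)
    rw [div_le_iff₀ hnR]
    rw [div_lt_iff₀ hε] at hN
    nlinarith
  refine Real.sSup_le (fun t ht => (hle n hn0 t ht).trans (by linarith)) (by linarith)

theorem half_le_limsup (A : ℕ → Set ℝ) (hle : ∀ n, ∀ t ∈ A n, t ≤ 1)
    (hge : ∀ m : ℕ, 0 < m → ∃ t ∈ A (4 * m), 1 / 2 - 1 / (2 * (m : ℝ)) ≤ t) :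
    1 / 2 ≤ limsup (fun n => sSup (A n)) atTop := by
  have hu : ∀ n, sSup (A n) ≤ 1 := fun n => Real.sSup_le (hle n) zero_le_one
  have hbdd : IsBoundedUnder (· ≤ ·) atTop (fun n => sSup (A n)) :=
    isBoundedUnder_of ⟨1, hu⟩
  apply le_of_forall_pos_le_add
  intro ε hε
  have hfr : ∃ᶠ n in atTop, 1 / 2 - ε ≤ sSup (A n) := by
    rw [frequently_atTop]
    intro N
    obtain ⟨q, hq⟩ := exists_nat_gt (1 / ε)
    have hm0 : 0 < N + q + 1 := by omega
    obtain ⟨t, ht, h1⟩ := hge (N + q + 1) hm0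
    refine ⟨4 * (N + q + 1), by omega, ?_⟩
    have hmR : (0 : ℝ) < ((N + q + 1 : ℕ) : ℝ) := by exact_mod_cast hm0
    have h2 : 1 / (2 * ((N + q + 1 : ℕ) : ℝ)) ≤ ε := by
      rw [div_le_iff₀ (by linarith)]
      rw [div_lt_iff₀ hε] at hq
      have h3 : (q : ℝ) ≤ ((N + q + 1 : ℕ) : ℝ) := by exact_mod_cast (by omega : q ≤ N + q + 1)
      nlinarith
    have h4 : t ≤ sSup (A (4 * (N + q + 1))) := le_csSup ⟨1, fun x hx => hle _ x hx⟩ ht
    linarith
  have := le_limsup_of_frequently_le hfr hbdd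
  linarith

theorem tauS_two_le : tauS 2 ≤ 1 / 2 := by
  apply limsup_le_half
  · rintro n t ⟨Δ, -, rfl⟩
    exact transversalRatio_nonneg Δ
  · rintro n hn t ⟨Δ, hΔ, rfl⟩
    have h1 := transversalNumber_le hΔ
    have hnR : (0 : ℝ) < n := by exact_mod_cast hn
    unfold transversalRatio
    rw [div_le_iff₀ hnR]
    have h2 : 2 * (transversalNumber Δ : ℝ) ≤ n + 2 := by exact_mod_cast h1
    have h3 : (1 / 2 + 1 / (n : ℝ)) * n = n / 2 + 1 := by field_simp
    rw [h3]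
    linarith

theorem tauP_two_le : tauP 2 ≤ 1 / 2 := by
  apply limsup_le_half
  · rintro n t ⟨p, -, rfl⟩
    exact transversalRatio_nonneg _
  · rintro n hn t ⟨p, hp, rfl⟩
    have h1 := transversalNumber_le (isSimplicialSphere_boundary (by norm_num : 0 < 2) hp)
    have hnR : (0 : ℝ) < n := by exact_mod_cast hn
    unfold transversalRatio
    rw [div_le_iff₀ hnR]
    have h2 : 2 * (transversalNumber (boundary p) : ℝ) ≤ n + 2 := by exact_mod_cast h1
    have h3 : (1 / 2 + 1 / (n : ℝ)) * n = n / 2 + 1 := by field_simp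
    rw [h3]
    linarith

theorem le_tauP_three : 1 / 2 ≤ tauP 3 := by
  apply half_le_limsup
  · rintro n t ⟨p, hp, rfl⟩
    exact transversalRatio_le_one (isComplex_boundary (by norm_num) hp)
  · intro m hm
    obtain ⟨p, hp, h⟩ := exists_polytope3 m hm
    exact ⟨_, ⟨p, hp, rfl⟩, h⟩

theorem le_tauS_three : 1 / 2 ≤ tauS 3 := by
  apply half_le_limsup
  · rintro n t ⟨Δ, hΔ, rfl⟩
    exact transversalRatio_le_one hΔ.1
  · intro m hm
    obtain ⟨p, hp, h⟩ := exists_polytope3 m hm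
    exact ⟨_, ⟨boundary p, isSimplicialSphere_boundary (by norm_num) hp, rfl⟩, h⟩

theorem limsup_le_one (A : ℕ → Set ℝ) (h0 : ∀ n, ∀ t ∈ A n, 0 ≤ t) (hle : ∀ n, ∀ t ∈ A n, t ≤ 1) :
    limsup (fun n => sSup (A n)) atTop ≤ 1 := by
  have hcob : IsCoboundedUnder (· ≤ ·) atTop (fun n => sSup (A n)) :=
    IsCoboundedUnder.of_frequently_ge (a := 0)
      (Frequently.of_forall fun n => Real.sSup_nonneg (h0 n))
  exact limsup_le_of_le hcob (Eventually.of_forall fun n => Real.sSup_le (hle n) zero_le_one)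

theorem tauP_le_one {d : ℕ} (hd : 0 < d) : tauP d ≤ 1 := by
  apply limsup_le_one
  · rintro n t ⟨p, -, rfl⟩
    exact transversalRatio_nonneg _
  · rintro n t ⟨p, hp, rfl⟩
    exact transversalRatio_le_one (isComplex_boundary hd hp)

theorem tauS_le_one (d : ℕ) : tauS d ≤ 1 := by
  apply limsup_le_one
  · rintro n t ⟨Δ, -, rfl⟩
    exact transversalRatio_nonneg _
  · rintro n t ⟨Δ, hΔ, rfl⟩
    exact transversalRatio_le_one hΔ.1

theorem monotone_of (τ : ℕ → ℝ) (h2 : τ 2 ≤ 1 / 2) (h3 : 1 / 2 ≤ τ 3) (h1 : ∀ d, 0 < d → τ d ≤ 1)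
    (h4 : ∀ d, 4 ≤ d → τ d = 1) {d e : ℕ} (hd : 2 ≤ d) (hde : d ≤ e) : τ d ≤ τ e := by
  rcases Nat.lt_or_ge e 4 with he | he
  · have : (d = 2 ∨ d = 3) ∧ (e = 2 ∨ e = 3) ∧ d ≤ e := by omega
    rcases this with ⟨rfl | rfl, rfl | rfl, h⟩
    · exact le_rfl
    · exact h2.trans h3
    · omega
    · exact le_rfl
  · rw [h4 e he]
    exact h1 d (by omega)

/-- **Q2.** The sequences `(τ^P_d)` and `(τ^S_d)`, `d ≥ 2`, are weakly increasing. -/
theorem result : (∀ d e : ℕ, 2 ≤ d → d ≤ e → tauP d ≤ tauP e) ∧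
    (∀ d e : ℕ, 2 ≤ d → d ≤ e → tauS d ≤ tauS e) :=
  ⟨fun _ _ hd hde => monotone_of tauP tauP_two_le le_tauP_three (fun _ h => tauP_le_one h)
      (fun _ h => tauP_eq_one h) hd hde,
    fun _ _ hd hde => monotone_of tauS tauS_two_le le_tauS_three (fun d _ => tauS_le_one d)
      (fun _ h => tauS_eq_one h) hd hde⟩

end Pool.Agent.Results.MP_ff81d5_co.Monotone
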